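import Pool.Agent.H934R3.NP.Stmts

set_option autoImplicit false
set_option maxHeartbeats 4000000

open MeasureTheory Set Filter Topology
open scoped ENNReal NNReal

namespace Pool.Agent.H653R3.NPF

open Pool.Agent.H934R3.NP

theorem null_singleton {μ : Measure E} [IsFiniteMeasure μ] {C : ℝ} (hC : 0 < C)
    (h : ∀ x : E, ∫⁻ y, ENNReal.ofReal (‖x - y‖ ^ (-(3 / 2) : ℝ)) ∂μ ≤ ENNReal.ofReal C)
    (p : E) : μ {p} = 0 := by
  by_contra hne
  set m : ℝ := (μ {p}).toReal with hm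
  have hmpos : 0 < m := ENNReal.toReal_pos hne (measure_ne_top _ _)
  set s : ℝ := C / m + 1 with hs
  have hspos : 0 < s := by positivity
  set t : ℝ := s ^ (-(2 / 3) : ℝ) with ht
  have htpos : 0 < t := Real.rpow_pos_of_pos hspos _
  have h1 := h (p + t • EuclideanSpace.single 0 (1 : ℝ))
  have h2 : ENNReal.ofReal s * μ {p} ≤
      ∫⁻ y, ENNReal.ofReal (‖p + t • EuclideanSpace.single 0 (1 : ℝ) - y‖ ^ (-(3 / 2) : ℝ)) ∂μ := by
    have h3 : ∫⁻ y in {p}, ENNReal.ofReal
        (‖p + t • EuclideanSpace.single 0 (1 : ℝ) - y‖ ^ (-(3 / 2) : ℝ)) ∂μ =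
        ENNReal.ofReal s * μ {p} := by
      rw [lintegral_singleton]
      congr 2
      rw [add_sub_cancel_left, norm_smul, PiLp.norm_single, norm_one, mul_one,
        Real.norm_eq_abs, abs_of_pos htpos, ht, ← Real.rpow_mul hspos.le]
      norm_num
    rw [← h3]
    exact setLIntegral_le_lintegral _ _
  have h4 := h2.trans h1
  have h5 : μ {p} = ENNReal.ofReal m := (ENNReal.ofReal_toReal (measure_ne_top _ _)).symm
  rw [h5, ← ENNReal.ofReal_mul hspos.le, ENNReal.ofReal_le_ofReal_iff hC.le] at h4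
  have h6 : s * m = C + m := by rw [hs]; field_simp
  linarith

noncomputable def Gd (δ : ℝ) (z : E) : ℝ := 1 / (4 * Real.pi * max ‖z‖ δ)

theorem Gd_nonneg {δ : ℝ} (hδ : 0 < δ) (z : E) : 0 ≤ Gd δ z := by
  unfold Gd
  have := Real.pi_pos
  positivity

theorem Gd_le {δ : ℝ} (hδ : 0 < δ) (z : E) : Gd δ z ≤ 1 / (4 * Real.pi * δ) := by
  unfold Gd
  have hp := Real.pi_pos
  apply one_div_le_one_div_of_le (by positivity)
  exact mul_le_mul_of_nonneg_left (le_max_right _ _) (by positivity)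

theorem Gd_cont {δ : ℝ} (hδ : 0 < δ) : Continuous (Gd δ) := by
  unfold Gd
  have hp := Real.pi_pos
  refine continuous_const.div (by fun_prop) fun z => ?_
  have : 0 < max ‖z‖ δ := lt_max_of_lt_right hδ
  positivity

theorem G_meas : Measurable G := by
  unfold G
  fun_prop

theorem diff_le {δ : ℝ} (hδ : 0 < δ) (z : E) (hz : z ≠ 0) :
    |G z - Gd δ z| ≤ Real.sqrt δ / (4 * Real.pi) * ‖z‖ ^ (-(3 / 2) : ℝ) := by
  have hp := Real.pi_pos
  have hr : 0 < ‖z‖ := norm_pos_iff.2 hz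
  rcases le_or_gt δ ‖z‖ with h | h
  · have : G z = Gd δ z := by unfold G Gd; rw [max_eq_left h]
    rw [this, sub_self, abs_zero]
    positivity
  · have h1 : Gd δ z ≤ G z := by
      unfold G Gd
      apply one_div_le_one_div_of_le (by positivity)
      exact mul_le_mul_of_nonneg_left (le_max_left _ _) (by positivity)
    rw [abs_of_nonneg (by linarith)]
    have h2 : G z = Real.sqrt ‖z‖ / (4 * Real.pi) * ‖z‖ ^ (-(3 / 2) : ℝ) := by
      unfold G
      rw [Real.sqrt_eq_rpow, div_mul_eq_mul_div, ← Real.rpow_add hr]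
      norm_num
      rw [Real.rpow_neg_one]
      ring
    have h3 : Real.sqrt ‖z‖ ≤ Real.sqrt δ := Real.sqrt_le_sqrt h.le
    have h4 : 0 ≤ ‖z‖ ^ (-(3 / 2) : ℝ) := by positivity
    have h5 : Real.sqrt ‖z‖ / (4 * Real.pi) ≤ Real.sqrt δ / (4 * Real.pi) := by gcongr
    calc G z - Gd δ z ≤ G z := by linarith [Gd_nonneg hδ z]
      _ = Real.sqrt ‖z‖ / (4 * Real.pi) * ‖z‖ ^ (-(3 / 2) : ℝ) := h2
      _ ≤ _ := mul_le_mul_of_nonneg_right h5 h4

theorem t : TaskF4 := by
  intro μ hμ C hC h φ hφ hφ1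
  have hp := Real.pi_pos
  have hnull := null_singleton hC h
  have hmeas : ∀ z : E, AEStronglyMeasurable (fun y : E => ‖z - y‖ ^ (-(3 / 2) : ℝ)) μ := fun z =>
    ((measurable_const.sub measurable_id).norm.pow_const _).aestronglyMeasurable
  have hint : ∀ z : E, Integrable (fun y => ‖z - y‖ ^ (-(3 / 2) : ℝ)) μ := by
    intro z
    refine ⟨hmeas z, ?_⟩
    rw [hasFiniteIntegral_iff_ofReal (ae_of_all _ fun y => by positivity)]
    exact lt_of_le_of_lt (h z) ENNReal.ofReal_lt_top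
  have hint2 : ∀ z : E, ∫ y, ‖z - y‖ ^ (-(3 / 2) : ℝ) ∂μ ≤ C := by
    intro z
    rw [integral_eq_lintegral_of_nonneg_ae (ae_of_all _ fun y => by positivity) (hmeas z)]
    exact ENNReal.toReal_le_of_le_ofReal hC.le (h z)
  have hGdint : ∀ δ : ℝ, 0 < δ → ∀ z : E, Integrable (fun y => Gd δ (z - y) * φ y) μ := by
    intro δ hδ z
    refine Integrable.mono' (integrable_const (1 / (4 * Real.pi * δ))) ?_ (ae_of_all _ fun y => ?_)
    · exact ((((Gd_cont hδ).measurable.comp (measurable_const.sub measurable_id)).mul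
        hφ)).aestronglyMeasurable
    · rw [Real.norm_eq_abs, abs_mul, abs_of_nonneg (Gd_nonneg hδ _)]
      calc Gd δ (z - y) * |φ y| ≤ Gd δ (z - y) * 1 :=
            mul_le_mul_of_nonneg_left (hφ1 y) (Gd_nonneg hδ _)
        _ ≤ _ := by rw [mul_one]; exact Gd_le hδ _
  have hae : ∀ z : E, ∀ᵐ y ∂μ, z - y ≠ 0 := by
    intro z
    have h1 : ∀ᵐ y ∂μ, y ∉ ({z} : Set E) := measure_eq_zero_iff_ae_notMem.1 (hnull z)
    filter_upwards [h1] with y hy h2
    exact hy (by rw [mem_singleton_iff]; exact (sub_eq_zero.1 h2).symm)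
  have hdiff : ∀ δ : ℝ, 0 < δ → ∀ z : E, ∀ᵐ y ∂μ, ‖G (z - y) * φ y - Gd δ (z - y) * φ y‖ ≤
      Real.sqrt δ / (4 * Real.pi) * ‖z - y‖ ^ (-(3 / 2) : ℝ) := by
    intro δ hδ z
    filter_upwards [hae z] with y hy
    rw [← sub_mul, Real.norm_eq_abs, abs_mul]
    calc |G (z - y) - Gd δ (z - y)| * |φ y| ≤ |G (z - y) - Gd δ (z - y)| * 1 :=
          mul_le_mul_of_nonneg_left (hφ1 y) (abs_nonneg _)
      _ ≤ _ := by rw [mul_one]; exact diff_le hδ _ hy
  have hdint : ∀ δ : ℝ, 0 < δ → ∀ z : E,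
      Integrable (fun y => G (z - y) * φ y - Gd δ (z - y) * φ y) μ := by
    intro δ hδ z
    refine Integrable.mono' ((hint z).const_mul (Real.sqrt δ / (4 * Real.pi))) ?_ (hdiff δ hδ z)
    refine Measurable.aestronglyMeasurable ?_
    exact ((G_meas.comp (measurable_const.sub measurable_id)).mul hφ).sub
      (((Gd_cont hδ).measurable.comp (measurable_const.sub measurable_id)).mul hφ)
  have hGint : ∀ z : E, Integrable (fun y => G (z - y) * φ y) μ := by
    intro z
    have := (hdint 1 one_pos z).add (hGdint 1 one_pos z)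
    refine this.congr (ae_of_all _ fun y => ?_)
    simp
  have hcontd : ∀ δ : ℝ, 0 < δ → Continuous (fun z => ∫ y, Gd δ (z - y) * φ y ∂μ) := by
    intro δ hδ
    refine continuous_of_dominated (bound := fun _ => 1 / (4 * Real.pi * δ)) ?_ ?_
      (integrable_const _) ?_
    · intro z
      exact (hGdint δ hδ z).aestronglyMeasurable
    · intro z
      refine ae_of_all _ fun y => ?_
      rw [Real.norm_eq_abs, abs_mul, abs_of_nonneg (Gd_nonneg hδ _)]
      calc Gd δ (z - y) * |φ y| ≤ Gd δ (z - y) * 1 :=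
            mul_le_mul_of_nonneg_left (hφ1 y) (Gd_nonneg hδ _)
        _ ≤ _ := by rw [mul_one]; exact Gd_le hδ _
    · refine ae_of_all _ fun y => ?_
      exact ((Gd_cont hδ).comp (continuous_id.sub continuous_const)).mul continuous_const
  apply continuous_of_uniform_approx_of_continuous
  intro u hu
  obtain ⟨ε, hε, hu⟩ := Metric.mem_uniformity_dist.1 hu
  set δ : ℝ := (4 * Real.pi * ε / (2 * C)) ^ 2 with hδdef
  have hδ : 0 < δ := by positivity
  refine ⟨_, hcontd δ hδ, fun z => hu ?_⟩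
  rw [Real.dist_eq, ← integral_sub (hGint z) (hGdint δ hδ z)]
  calc |∫ y, (G (z - y) * φ y - Gd δ (z - y) * φ y) ∂μ|
      ≤ ∫ y, Real.sqrt δ / (4 * Real.pi) * ‖z - y‖ ^ (-(3 / 2) : ℝ) ∂μ := by
        rw [← Real.norm_eq_abs]
        exact norm_integral_le_of_norm_le ((hint z).const_mul _) (hdiff δ hδ z)
    _ = Real.sqrt δ / (4 * Real.pi) * ∫ y, ‖z - y‖ ^ (-(3 / 2) : ℝ) ∂μ := integral_const_mul _ _
    _ ≤ Real.sqrt δ / (4 * Real.pi) * C := by gcongr; exact hint2 z
    _ = ε / 2 := by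
        rw [hδdef, Real.sqrt_sq (by positivity)]
        field_simp
    _ < ε := by linarith

end Pool.Agent.H653R3.NPF
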